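import Mathlib
import Pool.Agent.W2helper83.BT.Defs3
import Pool.Agent.W2helper92.BT2.LocPow

/-!
# Project BT3, piece LOCA
-/

set_option autoImplicit false

namespace Pool.Agent.W2helper85.BT3

open IsDedekindDomain NumberField Pool.Agent.W2helper83.BT

/-- existence of an extension of a valuation (only the values one matter) -/
lemma exists_ext {K L Γ : Type} [Field K] [Field L] [Algebra K L]
    [LinearOrderedCommGroupWithZero Γ] (v : Valuation K Γ) :
    ∃ A : ValuationSubring L, ∀ x : K, x ≠ 0 →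
      (A.valuation (algebraMap K L x) = 1 ↔ v x = 1) := by
  obtain ⟨A, h, hloc⟩ := IsLocalRing.exists_factor_valuationRing
    ((algebraMap K L).comp v.valuationSubring.subtype)
  have key : ∀ x : K, v x ≤ 1 → A.valuation (algebraMap K L x) ≤ 1 := fun x hx =>
    (A.valuation_le_one_iff _).2 (h ⟨x, hx⟩)
  have fwd : ∀ x : K, x ≠ 0 → v x = 1 → A.valuation (algebraMap K L x) = 1 := by
    intro x hx0 hx
    refine le_antisymm (key x hx.le) ?_
    have h1 := key x⁻¹ (by rw [map_inv₀, hx, inv_one])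
    rw [map_inv₀, map_inv₀] at h1
    have h0 : A.valuation (algebraMap K L x) ≠ 0 := by
      rw [Valuation.ne_zero_iff]
      exact (map_ne_zero _).2 hx0
    exact (inv_le_one₀ (zero_lt_iff.2 h0)).1 h1
  have bwd : ∀ x : K, x ≠ 0 → v x ≤ 1 → A.valuation (algebraMap K L x) = 1 → v x = 1 := by
    intro x hx0 hx hA
    have hm : (algebraMap K L x)⁻¹ ∈ A := by
      rw [← A.valuation_le_one_iff, map_inv₀, hA, inv_one]
    have hu : IsUnit (((algebraMap K L).comp v.valuationSubring.subtype).codRestrict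
        A.toSubring h ⟨x, hx⟩) := by
      refine isUnit_iff_exists_inv.2 ⟨⟨(algebraMap K L x)⁻¹, hm⟩, ?_⟩
      apply Subtype.ext
      change algebraMap K L x * (algebraMap K L x)⁻¹ = 1
      exact mul_inv_cancel₀ ((map_ne_zero _).2 hx0)
    have hu' := hloc.map_nonunit _ hu
    obtain ⟨⟨y, hy⟩, hxy⟩ := isUnit_iff_exists_inv.1 hu'
    have hxy' : x * y = 1 := congrArg Subtype.val hxy
    have hy1 : v y ≤ 1 := hy
    have h2 : v x * v y = 1 := by rw [← map_mul, hxy', map_one]
    refine le_antisymm hx ?_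
    rw [← h2]
    exact mul_le_of_le_one_right' hy1
  refine ⟨A, fun x hx0 => ⟨fun hA => ?_, fwd x hx0⟩⟩
  rcases le_total (v x) 1 with hx | hx
  · exact bwd x hx0 hx hA
  · have h1 : v x⁻¹ ≤ 1 := by
      rw [map_inv₀]
      exact inv_le_one_of_one_le₀ hx
    have h2 := bwd x⁻¹ (inv_ne_zero hx0) h1 (by rw [map_inv₀, map_inv₀, hA, inv_one])
    rwa [map_inv₀, inv_eq_one] at h2

/-- roots in an algebraically closed field, integer exponents -/
lemma exists_zroot {L : Type} [Field L] [IsAlgClosed L] (a : L) (m : ℤ) (hm : m ≠ 0) :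
    ∃ b : L, b ^ m = a := by
  obtain ⟨b, hb⟩ := IsAlgClosed.exists_pow_nat_eq a (Int.natAbs_pos.2 hm)
  rcases Int.natAbs_eq m with h | h
  · exact ⟨b, by rw [h, zpow_natCast, hb]⟩
  · exact ⟨b⁻¹, by rw [h, zpow_neg, inv_zpow, inv_inv, zpow_natCast, hb]⟩

lemma conj_iter {K L : Type} [Field K] [Field L] [Algebra K L] (e : ℤ) (a c : K) (b : L)
    (hb0 : b ≠ 0) (hb : b ^ (e - 1) = algebraMap K L a) (x : K) (n : ℕ) :
    (fz e (b * algebraMap K L c))^[n] (b * algebraMap K L x) =
      b * algebraMap K L ((fa e a c)^[n] x) := by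
  induction n generalizing x with
  | zero => rfl
  | succ n ih =>
    rw [Function.iterate_succ_apply, Function.iterate_succ_apply, ← ih]
    congr 1
    unfold fz fa
    rw [map_add, map_mul, map_zpow₀, ← hb, mul_zpow, mul_add, ← mul_assoc]
    congr 2
    rw [← zpow_one_add₀ hb0]
    congr 1
    ring

theorem loca : LOCA := by
  intro K _ _ v d e a c x y ζ₁ ζ₂ hd he hvd hz ha hx hy hxy h1 h1' h2 h2' hne hne'
  have hd0 : d ≠ 0 := by omega
  by_cases hx0 : x = 0
  · -- trivial case
    subst hx0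
    have hy0 : y ≠ 0 := fun h => hxy h.symm
    refine ⟨0, 1, one_ne_zero, ?_⟩
    have hroot : ∀ ζ : K, ζ ^ d = 1 → v.valuation K ζ = 1 := by
      intro ζ hζ
      have : (v.valuation K ζ) ^ d = 1 := by rw [← map_pow, hζ, map_one]
      exact (pow_eq_one_iff_of_nonneg zero_le hd0).1 this
    have e1 : (0 - ζ₁ * y) / (0 - ζ₂ * y) = ζ₁ / ζ₂ := by
      have hζ2 : ζ₂ ≠ 0 := by
        rintro rfl
        rw [zero_pow hd0] at h2
        exact zero_ne_one h2
      field_simp
      ring
    rw [e1, map_div₀, hroot ζ₁ h1, hroot ζ₂ h2, div_one, zpow_zero]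
  · have he1 : e - 1 ≠ 0 := by
      rcases he with h | h <;> omega
    obtain ⟨A, hA⟩ := exists_ext (L := AlgebraicClosure K) (v.valuation K)
    obtain ⟨b, hb⟩ := exists_zroot (algebraMap K (AlgebraicClosure K) a) (e - 1) he1
    have hb0 : b ≠ 0 := by
      rintro rfl
      rw [zero_zpow _ he1] at hb
      exact ha ((map_eq_zero _).1 hb.symm)
    have hinj : Function.Injective (algebraMap K (AlgebraicClosure K)) :=
      (algebraMap K (AlgebraicClosure K)).injective
    have hdK : (d : K) ≠ 0 := by exact_mod_cast hd0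
    have hwd : A.valuation (d : AlgebraicClosure K) = 1 := by
      rw [← map_natCast (algebraMap K (AlgebraicClosure K)) d]
      exact (hA _ hdK).2 hvd
    obtain ⟨ζ, hζ⟩ := hz
    have hz' : ∃ ζ : AlgebraicClosure K, IsPrimitiveRoot ζ d :=
      ⟨_, hζ.map_of_injective hinj⟩
    have hper : ∀ z : K, PerA e a c z → PerZ e (b * algebraMap K (AlgebraicClosure K) c)
        (b * algebraMap K (AlgebraicClosure K) z) := by
      rintro z ⟨n, hn, hzn⟩
      exact ⟨n, hn, by rw [conj_iter e a c b hb0 hb, hzn]⟩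
    have e1 : ∀ ζ : K, b * algebraMap K (AlgebraicClosure K) x -
        algebraMap K (AlgebraicClosure K) ζ * (b * algebraMap K (AlgebraicClosure K) y) =
        b * algebraMap K (AlgebraicClosure K) (x - ζ * y) := by
      intro ζ
      rw [map_sub, map_mul]
      ring
    obtain ⟨k, hk⟩ := Pool.Agent.W2helper92.BT2.loc_pow (AlgebraicClosure K) A.ValueGroup
      A.valuation d e (b * algebraMap K (AlgebraicClosure K) c)
      (b * algebraMap K (AlgebraicClosure K) x) (b * algebraMap K (AlgebraicClosure K) y)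
      (algebraMap K (AlgebraicClosure K) ζ₁) (algebraMap K (AlgebraicClosure K) ζ₂) hd he hwd hz'
      (hper x hx) (hper y hy)
      (fun h => hxy (hinj (mul_left_cancel₀ hb0 h)))
      (by rw [← map_pow, h1, map_one]) (fun h => h1' (hinj (h.trans (map_one _).symm)))
      (by rw [← map_pow, h2, map_one]) (fun h => h2' (hinj (h.trans (map_one _).symm)))
      (by
        rw [e1]
        exact mul_ne_zero hb0 ((map_ne_zero _).2 hne))
    rw [e1, e1, mul_div_mul_left _ _ hb0, ← map_div₀] at hk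
    have hk' : A.valuation (b * algebraMap K (AlgebraicClosure K) x) ^ (k * (e - 1)) =
        A.valuation (algebraMap K (AlgebraicClosure K) ((a * x ^ (e - 1)) ^ k)) := by
      rw [mul_comm k, zpow_mul, ← map_zpow₀, ← map_zpow₀, mul_zpow, hb, ← map_zpow₀, ← map_mul,
        ← map_zpow₀]
    rw [hk'] at hk
    have hu0 : (a * x ^ (e - 1)) ^ k ≠ 0 := zpow_ne_zero _ (mul_ne_zero ha (zpow_ne_zero _ hx0))
    have hq0 : (x - ζ₁ * y) / (x - ζ₂ * y) ≠ 0 := div_ne_zero hne hne'
    have h3 := (hA ((x - ζ₁ * y) / (x - ζ₂ * y) / (a * x ^ (e - 1)) ^ k)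
      (div_ne_zero hq0 hu0)).1 (by
        rw [map_div₀, map_div₀, hk, div_self]
        rw [Valuation.ne_zero_iff]
        exact (map_ne_zero _).2 hu0)
    refine ⟨k, x, hx0, ?_⟩
    rw [map_div₀, div_eq_one_iff_eq] at h3
    · rw [h3, map_zpow₀]
    · rw [Valuation.ne_zero_iff]
      exact hu0

end Pool.Agent.W2helper85.BT3
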