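import Mathlib
import Pool.Agent.W2helper83.BT.Defs4
import Pool.Agent.W2helper92.BT2.LocPow

/-!
# Project BT4, piece LOCB: the dichotomy for the ratios of two periodic points

`dich_pos`, `dich_neg` follow the proofs of `Pool.Agent.W2helper92.BT2.loc_pow_pos`, `loc_pow_neg`.
-/

set_option autoImplicit false

namespace Pool.Agent.W2helper85.BT4

open IsDedekindDomain NumberField Pool.Agent.W2helper83.BT Pool.Agent.W2helper92.BT2 Polynomial

variable {K Γ : Type} [Field K] [LinearOrderedCommGroupWithZero Γ] {w : Valuation K Γ}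

theorem dich_pos {d : ℕ} (hd : 2 ≤ d) (hwd : w (d : K) = 1) {z : K} (hz : IsPrimitiveRoot z d)
    {c x y ζ₁ ζ₂ : K} {N : ℕ} (hN : 0 < N) (hx : (fz (d : ℤ) c)^[N] x = x)
    (hy : (fz (d : ℤ) c)^[N] y = y) (hxy : x ≠ y) (h1 : ζ₁ ^ d = 1) (h1' : ζ₁ ≠ 1)
    (h2 : ζ₂ ^ d = 1) (h2' : ζ₂ ≠ 1) (hne : x - ζ₁ * y ≠ 0) :
    w ((x - ζ₁ * y) / (x - ζ₂ * y)) = 1 ∨ (1 < w x ^ ((d : ℤ) - 1) ∧ w c = w x ^ (d : ℤ) ∧
      ∃ k : ℤ, w ((x - ζ₁ * y) / (x - ζ₂ * y)) = w x ^ (k * ((d : ℤ) - 1))) := by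
  have hd0 : 0 < d := by omega
  rcases le_or_gt (w c) 1 with hc | hc
  · -- good reduction
    set F : K × K → K × K := fun P => (P.1 ^ d + c * P.2 ^ d, P.2 ^ d) with hF
    have hit : ∀ (u : K) (k : ℕ), F^[k] (u, 1) = ((fz (d : ℤ) c)^[k] u, 1) := by
      intro u k
      induction k with
      | zero => rfl
      | succ k ih =>
        rw [Function.iterate_succ_apply', Function.iterate_succ_apply', ih, fz_nat]
        simp [hF]
    have hg : ∀ ζ : K, ζ ^ d = 1 → ζ ≠ 1 → w (x - ζ * y) = nn w (x, 1) * nn w (y, 1) := by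
      intro ζ hζ hζ1
      have := good (w := w) hd hz (F := F)
        (by
          intro P Q
          congr 1
          simp only [hF]
          rw [mul_pow, mul_pow]
          ring)
        (fun P => nn_G (by omega) hc P) hN (P := (x, 1)) (Q := (y, 1)) (t := 1) (s := 1)
        (by simpa using sub_ne_zero.2 hxy) one_ne_zero one_ne_zero
        (by rw [hit, hx, one_smul]) (by rw [hit, hy, one_smul]) hζ hζ1
      simpa using this
    left
    rw [map_div₀, hg ζ₁ h1 h1', hg ζ₂ h2 h2', div_self]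
    rw [← hg ζ₁ h1 h1']
    exact (w.ne_zero_iff).2 hne
  · -- bad reduction
    have hwx0 : w x ^ d = w c := bad_pos hd hc hN hx
    have hwx : ∀ k, w ((fz (d : ℤ) c)^[k] x) = w x := by
      intro k
      have := bad_pos hd hc hN (it_per hx k)
      rw [← hwx0] at this
      exact (pow_left_inj₀ zero_le zero_le hd0.ne').1 this
    have hwy : ∀ k, w ((fz (d : ℤ) c)^[k] y) = w x := by
      intro k
      have := bad_pos hd hc hN (it_per hy k)
      rw [← hwx0] at this
      exact (pow_left_inj₀ zero_le zero_le hd0.ne').1 this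
    have hW1 : 1 < w x := by
      by_contra hcon
      rw [not_lt] at hcon
      have h3 : w x ^ d ≤ 1 := pow_le_one₀ zero_le hcon
      rw [hwx0] at h3
      exact absurd hc (not_lt.2 h3)
    have hW0 : w x ≠ 0 := (zero_lt_one.trans hW1).ne'
    have hx0 : x ≠ 0 := (w.ne_zero_iff).1 hW0
    have key := core_pow hd hwd hz hN hx hy hxy hW0 hwx hwy (g₀ := x⁻¹) (inv_ne_zero hx0) ?_
      (m := d - 1) (by omega) ?_ h1 h1' h2 h2'
    · obtain ⟨k, hk⟩ := key
      refine Or.inr ⟨one_lt_zpow₀ hW1 (by omega), by rw [zpow_natCast, hwx0], -k, ?_⟩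
      rw [hk, map_inv₀, ← zpow_natCast, ← zpow_mul, inv_zpow', Nat.cast_sub (by omega)]
      congr 1
      push_cast
      ring
    · rw [map_inv₀]
      exact inv_lt_one_of_one_lt₀ hW1
    · intro k
      rw [Function.iterate_succ_apply', Function.iterate_succ_apply', fz_nat, fz_nat,
        add_sub_add_right_eq_sub, map_inv₀, mul_assoc, ← mul_pow, inv_mul_cancel₀ hW0, one_pow,
        mul_one]

theorem dich_neg {d : ℕ} (hd : 2 ≤ d) (hwd : w (d : K) = 1) {z : K} (hz : IsPrimitiveRoot z d)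
    {c x y ζ₁ ζ₂ : K} {N : ℕ} (hN : 0 < N) (hx : (fz (-(d : ℤ)) c)^[N] x = x)
    (hy : (fz (-(d : ℤ)) c)^[N] y = y) (hxy : x ≠ y) (h1 : ζ₁ ^ d = 1) (h1' : ζ₁ ≠ 1)
    (h2 : ζ₂ ^ d = 1) (h2' : ζ₂ ≠ 1) (hne : x - ζ₁ * y ≠ 0) :
    w ((x - ζ₁ * y) / (x - ζ₂ * y)) = 1 ∨ (1 < w x ^ (-(d : ℤ) - 1) ∧ w c = w x ^ (-(d : ℤ)) ∧
      ∃ k : ℤ, w ((x - ζ₁ * y) / (x - ζ₂ * y)) = w x ^ (k * (-(d : ℤ) - 1))) := by
  have hd0 : 0 < d := by omega
  rcases le_or_gt (w c) 1 with hc | hc
  · -- good reduction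
    obtain ⟨k1, hk1, t1, ht1, e1⟩ := FN_it (by omega : d ≠ 0) c x N
    obtain ⟨k2, hk2, t2, ht2, e2⟩ := FN_it (by omega : d ≠ 0) c y N
    rw [hx] at e1
    rw [hy] at e2
    obtain ⟨s1, hs1, e1'⟩ := FN_mul ht1 e1 k2
    obtain ⟨s2, hs2, e2'⟩ := FN_mul ht2 e2 k1
    rw [Nat.mul_comm k2 k1] at e2'
    have hg : ∀ ζ : K, ζ ^ d = 1 → ζ ≠ 1 → w (x - ζ * y) = nn w (x, 1) * nn w (y, 1) := by
      intro ζ hζ hζ1
      have := good (w := w) hd hz (F := FN d c)
        (by
          intro P Q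
          have : (FN d c P).1 * (FN d c Q).2 - (FN d c Q).1 * (FN d c P).2 =
              -((P.1 * Q.2) ^ d - (Q.1 * P.2) ^ d) := by
            simp only [FN]
            rw [mul_pow, mul_pow]
            ring
          rw [this, Valuation.map_neg])
        (fun P => by
          have := nn_G (w := w) (c := c) (by omega : d ≠ 0) hc (P.2, P.1)
          unfold FN
          simp only at this
          rw [this]
          unfold nn
          simp only
          rw [max_comm]) (Nat.mul_pos (hN.trans_le hk1) (hN.trans_le hk2))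
        (P := (x, 1)) (Q := (y, 1)) (t := s1) (s := s2)
        (by simpa using sub_ne_zero.2 hxy) hs1 hs2 e1' e2' hζ hζ1
      simpa using this
    left
    rw [map_div₀, hg ζ₁ h1 h1', hg ζ₂ h2 h2', div_self]
    rw [← hg ζ₁ h1 h1']
    exact (w.ne_zero_iff).2 hne
  · -- bad reduction
    have hsmall : ∀ a : Γ, a ^ d * w c = 1 → a < 1 := by
      intro a ha
      by_contra hcon
      rw [not_lt] at hcon
      have h3 : 1 < a ^ d * w c := by
        calc (1 : Γ) < w c := hc
          _ = 1 * w c := (one_mul _).symm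
          _ ≤ a ^ d * w c := mul_le_mul' (one_le_pow₀ hcon) le_rfl
      rw [ha] at h3
      exact absurd h3 (lt_irrefl _)
    rcases bad_neg hd hc hN hx with hX | hX <;> rcases bad_neg hd hc hN hy with hY | hY
    · exfalso
      have hdec : ∀ k, w ((fz (-(d : ℤ)) c)^[k + 1] x - (fz (-(d : ℤ)) c)^[k + 1] y) <
          w (x - y) := by
        intro k
        induction k with
        | zero => exact contract hd hc (hX 0) (hY 0) hxy
        | succ k ih =>
          rw [Function.iterate_succ_apply' _ (k + 1), Function.iterate_succ_apply' _ (k + 1)]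
          exact (contract hd hc (hX _) (hY _) (it_ne hN hx hy hxy _)).trans ih
      have := hdec (N - 1)
      rw [Nat.sub_add_cancel hN, hx, hy] at this
      exact absurd this (lt_irrefl _)
    · have hx1 : w x = w c := hX 0
      have hy1 : w y < 1 := hsmall _ (hY 0)
      have hval : ∀ ζ : K, ζ ^ d = 1 → w (x - ζ * y) = w x := by
        intro ζ hζ
        rw [sub_eq_add_neg, w.map_add_eq_of_lt_left]
        rw [Valuation.map_neg, map_mul, val_root w hd0.ne' hζ, one_mul, hx1]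
        exact hy1.trans hc
      left
      rw [map_div₀, hval ζ₁ h1, hval ζ₂ h2, div_self]
      rw [← hval ζ₁ h1]
      exact (w.ne_zero_iff).2 hne
    · have hy1 : w y = w c := hY 0
      have hx1 : w x < 1 := hsmall _ (hX 0)
      have hval : ∀ ζ : K, ζ ^ d = 1 → w (x - ζ * y) = w y := by
        intro ζ hζ
        have e : w (-(ζ * y)) = w y := by
          rw [Valuation.map_neg, map_mul, val_root w hd0.ne' hζ, one_mul]
        rw [sub_eq_add_neg, w.map_add_eq_of_lt_right, e]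
        rw [e, hy1]
        exact hx1.trans hc
      left
      rw [map_div₀, hval ζ₁ h1, hval ζ₂ h2, div_self]
      rw [← hval ζ₁ h1]
      exact (w.ne_zero_iff).2 hne
    · have hC0 : w c ≠ 0 := (zero_lt_one.trans hc).ne'
      have hx0 : w x ^ d * w c = 1 := hX 0
      have heq : ∀ a : Γ, a ^ d * w c = 1 → a = w x := by
        intro a ha
        rw [← hx0] at ha
        exact (pow_left_inj₀ zero_le zero_le hd0.ne').1 (mul_right_cancel₀ hC0 ha)
      have hW1 : w x < 1 := hsmall _ hx0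
      have hW0 : w x ≠ 0 := by
        intro h
        rw [h, zero_pow hd0.ne', zero_mul] at hx0
        exact zero_ne_one hx0
      have hwx : ∀ k, w ((fz (-(d : ℤ)) c)^[k] x) = w x := fun k => heq _ (hX k)
      have hwy : ∀ k, w ((fz (-(d : ℤ)) c)^[k] y) = w x := fun k => heq _ (hY k)
      have key := core_pow hd hwd hz hN hx hy hxy hW0 hwx hwy (g₀ := x) ((w.ne_zero_iff).1 hW0)
        hW1 (m := d + 1) (by omega) ?_ h1 h1' h2 h2'
      · obtain ⟨k, hk⟩ := key
        refine Or.inr ⟨?_, ?_, -k, ?_⟩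
        · have e0 : w x ^ (-(d : ℤ) - 1) = (w x)⁻¹ ^ ((d : ℤ) + 1) := by
            rw [inv_zpow']
            congr 1
            ring
          rw [e0]
          exact one_lt_zpow₀ ((one_lt_inv₀ (zero_lt_iff.2 hW0)).2 hW1) (by omega)
        · rw [zpow_neg, zpow_natCast]
          exact eq_inv_of_mul_eq_one_right hx0
        rw [hk, ← zpow_natCast, ← zpow_mul]
        congr 1
        push_cast
        ring
      intro k
      set u := (fz (-(d : ℤ)) c)^[k] x with hu
      set v := (fz (-(d : ℤ)) c)^[k] y with hv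
      have hu0 : u ≠ 0 := (w.ne_zero_iff).1 (by rw [hwx k]; exact hW0)
      have hv0 : v ≠ 0 := (w.ne_zero_iff).1 (by rw [hwy k]; exact hW0)
      have e1 : u ^ d - v ^ d = -((fz (-(d : ℤ)) c u - fz (-(d : ℤ)) c v) * (u ^ d * v ^ d)) := by
        rw [fz_neg, fz_neg]
        have hu1 : u ^ d ≠ 0 := pow_ne_zero _ hu0
        have hv1 : v ^ d ≠ 0 := pow_ne_zero _ hv0
        field_simp
        ring
      rw [Function.iterate_succ_apply', Function.iterate_succ_apply', ← hu, ← hv, e1,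
        Valuation.map_neg, map_mul, map_mul, map_pow, map_pow, hwx k, hwy k, mul_assoc, ← pow_add,
        ← pow_add]
      congr 2
      omega

theorem dich {d : ℕ} {e : ℤ} {c x y ζ₁ ζ₂ : K} (hd : 2 ≤ d) (he : e = d ∨ e = -d)
    (hwd : w (d : K) = 1) (hz : ∃ ζ : K, IsPrimitiveRoot ζ d) (hx : PerZ e c x) (hy : PerZ e c y)
    (hxy : x ≠ y) (h1 : ζ₁ ^ d = 1) (h1' : ζ₁ ≠ 1) (h2 : ζ₂ ^ d = 1) (h2' : ζ₂ ≠ 1)
    (hne : x - ζ₁ * y ≠ 0) :
    w ((x - ζ₁ * y) / (x - ζ₂ * y)) = 1 ∨ (1 < w x ^ (e - 1) ∧ w c = w x ^ e ∧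
      ∃ k : ℤ, w ((x - ζ₁ * y) / (x - ζ₂ * y)) = w x ^ (k * (e - 1))) := by
  obtain ⟨z, hz⟩ := hz
  obtain ⟨n1, hn1, hx⟩ := hx
  obtain ⟨n2, hn2, hy⟩ := hy
  have hx' := it_mul hx n2
  have hy' := it_mul hy n1
  rw [Nat.mul_comm n2 n1] at hy'
  have hN : 0 < n1 * n2 := Nat.mul_pos hn1 hn2
  rcases he with rfl | rfl
  · exact dich_pos hd hwd hz hN hx' hy' hxy h1 h1' h2 h2' hne
  · exact dich_neg hd hwd hz hN hx' hy' hxy h1 h1' h2 h2' hne

/-- existence of an extension of a valuation -/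
lemma exists_ext {K L Γ : Type} [Field K] [Field L] [Algebra K L]
    [LinearOrderedCommGroupWithZero Γ] (v : Valuation K Γ) :
    ∃ A : ValuationSubring L, (∀ x : K, v x ≤ 1 → A.valuation (algebraMap K L x) ≤ 1) ∧
      ∀ x : K, x ≠ 0 → (A.valuation (algebraMap K L x) = 1 ↔ v x = 1) := by
  obtain ⟨A, h, hloc⟩ := IsLocalRing.exists_factor_valuationRing
    ((algebraMap K L).comp v.valuationSubring.subtype)
  have key : ∀ x : K, v x ≤ 1 → A.valuation (algebraMap K L x) ≤ 1 := fun x hx =>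
    (A.valuation_le_one_iff _).2 (h ⟨x, hx⟩)
  have fwd : ∀ x : K, x ≠ 0 → v x = 1 → A.valuation (algebraMap K L x) = 1 := by
    intro x hx0 hx
    refine le_antisymm (key x hx.le) ?_
    have h1 := key x⁻¹ (by rw [map_inv₀, hx, inv_one])
    rw [map_inv₀, map_inv₀] at h1
    have h0 : A.valuation (algebraMap K L x) ≠ 0 := by
      rw [Valuation.ne_zero_iff]
      exact (_root_.map_ne_zero _).2 hx0
    exact (inv_le_one₀ (zero_lt_iff.2 h0)).1 h1
  have bwd : ∀ x : K, x ≠ 0 → v x ≤ 1 → A.valuation (algebraMap K L x) = 1 → v x = 1 := by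
    intro x hx0 hx hA
    have hm : (algebraMap K L x)⁻¹ ∈ A := by
      rw [← A.valuation_le_one_iff, map_inv₀, hA, inv_one]
    have hu : IsUnit (((algebraMap K L).comp v.valuationSubring.subtype).codRestrict
        A.toSubring h ⟨x, hx⟩) := by
      refine isUnit_iff_exists_inv.2 ⟨⟨(algebraMap K L x)⁻¹, hm⟩, ?_⟩
      apply Subtype.ext
      change algebraMap K L x * (algebraMap K L x)⁻¹ = 1
      exact mul_inv_cancel₀ ((_root_.map_ne_zero _).2 hx0)
    have hu' := hloc.map_nonunit _ hu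
    obtain ⟨⟨y, hy⟩, hxy⟩ := isUnit_iff_exists_inv.1 hu'
    have hxy' : x * y = 1 := congrArg Subtype.val hxy
    have hy1 : v y ≤ 1 := hy
    have h2 : v x * v y = 1 := by rw [← map_mul, hxy', map_one]
    refine le_antisymm hx ?_
    rw [← h2]
    exact mul_le_of_le_one_right' hy1
  refine ⟨A, key, fun x hx0 => ⟨fun hA => ?_, fwd x hx0⟩⟩
  rcases le_total (v x) 1 with hx | hx
  · exact bwd x hx0 hx hA
  · have h1 : v x⁻¹ ≤ 1 := by
      rw [map_inv₀]
      exact inv_le_one_of_one_le₀ hx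
    have h2 := bwd x⁻¹ (inv_ne_zero hx0) h1 (by rw [map_inv₀, map_inv₀, hA, inv_one])
    rwa [map_inv₀, inv_eq_one] at h2

/-- roots in an algebraically closed field, integer exponents -/
lemma exists_zroot {L : Type} [Field L] [IsAlgClosed L] (a : L) (m : ℤ) (hm : m ≠ 0) :
    ∃ b : L, b ^ m = a := by
  obtain ⟨b, hb⟩ := IsAlgClosed.exists_pow_nat_eq a (Int.natAbs_pos.2 hm)
  rcases Int.natAbs_eq m with h | h
  · exact ⟨b, by rw [h, zpow_natCast, hb]⟩
  · exact ⟨b⁻¹, by rw [h, zpow_neg, inv_zpow, inv_inv, zpow_natCast, hb]⟩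

lemma conj_iter {K L : Type} [Field K] [Field L] [Algebra K L] (e : ℤ) (a c : K) (b : L)
    (hb0 : b ≠ 0) (hb : b ^ (e - 1) = algebraMap K L a) (x : K) (n : ℕ) :
    (fz e (b * algebraMap K L c))^[n] (b * algebraMap K L x) =
      b * algebraMap K L ((fa e a c)^[n] x) := by
  induction n generalizing x with
  | zero => rfl
  | succ n ih =>
    rw [Function.iterate_succ_apply, Function.iterate_succ_apply, ← ih]
    congr 1
    unfold fz fa
    rw [map_add, map_mul, map_zpow₀, ← hb, mul_zpow, mul_add, ← mul_assoc]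
    congr 2
    rw [← zpow_one_add₀ hb0]
    congr 1
    ring

theorem locb : LOCB := by
  intro K _ _ v d e b c x y ζ₁ ζ₂ hd he hvd hz ha hx hy hxy h1 h1' h2 h2' hne hne'
  have hd0 : d ≠ 0 := by omega
  have he1 : e - 1 ≠ 0 := by
    rcases he with h | h <;> omega
  obtain ⟨A, hA1, hA⟩ := exists_ext (L := AlgebraicClosure K) (v.valuation K)
  obtain ⟨β, hb⟩ := exists_zroot (algebraMap K (AlgebraicClosure K) b) (e - 1) he1
  have hb0 : β ≠ 0 := by
    rintro rfl
    rw [zero_zpow _ he1] at hb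
    exact ha ((map_eq_zero _).1 hb.symm)
  have hinj : Function.Injective (algebraMap K (AlgebraicClosure K)) :=
    (algebraMap K (AlgebraicClosure K)).injective
  have hdK : (d : K) ≠ 0 := by exact_mod_cast hd0
  have hwd : A.valuation (d : AlgebraicClosure K) = 1 := by
    rw [← map_natCast (algebraMap K (AlgebraicClosure K)) d]
    exact (hA _ hdK).2 hvd
  obtain ⟨ζ, hζ⟩ := hz
  have hz' : ∃ ζ : AlgebraicClosure K, IsPrimitiveRoot ζ d :=
    ⟨_, hζ.map_of_injective hinj⟩
  have hper : ∀ z : K, PerA e b c z → PerZ e (β * algebraMap K (AlgebraicClosure K) c)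
      (β * algebraMap K (AlgebraicClosure K) z) := by
    rintro z ⟨n, hn, hzn⟩
    exact ⟨n, hn, by rw [conj_iter e b c β hb0 hb, hzn]⟩
  have e1 : ∀ ζ : K, β * algebraMap K (AlgebraicClosure K) x -
      algebraMap K (AlgebraicClosure K) ζ * (β * algebraMap K (AlgebraicClosure K) y) =
      β * algebraMap K (AlgebraicClosure K) (x - ζ * y) := by
    intro ζ
    rw [map_sub, map_mul]
    ring
  have hq0 : (x - ζ₁ * y) / (x - ζ₂ * y) ≠ 0 := div_ne_zero hne hne'
  -- values of elements of `K`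
  have tr : ∀ g h : K, g ≠ 0 → h ≠ 0 → A.valuation (algebraMap K (AlgebraicClosure K) g) =
      A.valuation (algebraMap K (AlgebraicClosure K) h) → v.valuation K g = v.valuation K h := by
    intro g h hg hh hgh
    have h3 := (hA (g / h) (div_ne_zero hg hh)).1 (by
      rw [map_div₀, map_div₀, hgh, div_self]
      rw [Valuation.ne_zero_iff]
      exact (_root_.map_ne_zero _).2 hh)
    rwa [map_div₀, div_eq_one_iff_eq] at h3
    rw [Valuation.ne_zero_iff]
    exact hh
  have pw : ∀ z : K, A.valuation (β * algebraMap K (AlgebraicClosure K) z) ^ (e - 1) =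
      A.valuation (algebraMap K (AlgebraicClosure K) (b * z ^ (e - 1))) := by
    intro z
    rw [← map_zpow₀, mul_zpow, hb, ← map_zpow₀, ← map_mul]
  rcases dich (w := A.valuation) (c := β * algebraMap K (AlgebraicClosure K) c)
      (x := β * algebraMap K (AlgebraicClosure K) x) (y := β * algebraMap K (AlgebraicClosure K) y)
      (ζ₁ := algebraMap K (AlgebraicClosure K) ζ₁) (ζ₂ := algebraMap K (AlgebraicClosure K) ζ₂)
      hd he hwd hz' (hper x hx) (hper y hy)
      (fun h => hxy (hinj (mul_left_cancel₀ hb0 h)))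
      (by rw [← map_pow, h1, map_one]) (fun h => h1' (hinj (h.trans (map_one _).symm)))
      (by rw [← map_pow, h2, map_one]) (fun h => h2' (hinj (h.trans (map_one _).symm)))
      (by
        rw [e1]
        exact mul_ne_zero hb0 ((_root_.map_ne_zero _).2 hne)) with hcase | ⟨hlt, hc, k, hk⟩
  · left
    rw [e1, e1, mul_div_mul_left _ _ hb0, ← map_div₀] at hcase
    exact (hA _ hq0).1 hcase
  · right
    have hx0 : x ≠ 0 := by
      rintro rfl
      rw [map_zero, mul_zero, map_zero, zero_zpow _ he1] at hlt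
      exact absurd hlt (not_lt.2 zero_le)
    have hg0 : b * x ^ (e - 1) ≠ 0 := mul_ne_zero ha (zpow_ne_zero _ hx0)
    have hβx : A.valuation (β * algebraMap K (AlgebraicClosure K) x) ≠ 0 := by
      rw [Valuation.ne_zero_iff]
      exact mul_ne_zero hb0 ((_root_.map_ne_zero _).2 hx0)
    have hc0 : c ≠ 0 := by
      rintro rfl
      rw [map_zero, mul_zero, map_zero] at hc
      exact zpow_ne_zero _ hβx hc.symm
    refine ⟨?_, ?_, k, ?_⟩
    · rw [pw] at hlt
      by_contra hcon
      exact absurd hlt (not_lt.2 (hA1 _ (not_lt.1 hcon)))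
    · rw [← map_zpow₀]
      apply tr _ _ (mul_ne_zero ha (zpow_ne_zero _ hc0)) (zpow_ne_zero _ hg0)
      rw [map_zpow₀ (algebraMap K (AlgebraicClosure K)), map_zpow₀, ← pw, ← pw, hc, ← zpow_mul,
        ← zpow_mul, mul_comm (e - 1) e]
    · rw [← map_zpow₀]
      apply tr _ _ hq0 (zpow_ne_zero _ hg0)
      rw [e1, e1, mul_div_mul_left _ _ hb0, ← map_div₀] at hk
      rw [hk, map_zpow₀ (algebraMap K (AlgebraicClosure K)), map_zpow₀, ← pw, ← zpow_mul,
        mul_comm (e - 1) k]

end Pool.Agent.W2helper85.BT4
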